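import Mathlib

/-!
# Complemented copies
-/

set_option autoImplicit false

namespace Pool.Agent.NH62.Lip

/-- `Z` is linearly isomorphic to a complemented subspace of `W`: there are a bounded linear
projection `P` on `W` and a linear homeomorphism of `Z` onto the range of `P`. -/
def IsoComplemented (Z W : Type) [NormedAddCommGroup Z] [NormedSpace ℝ Z]
    [NormedAddCommGroup W] [NormedSpace ℝ W] : Prop :=
  ∃ P : W →L[ℝ] W, (∀ w, P (P w) = P w) ∧
    Nonempty (Z ≃L[ℝ] LinearMap.range (P : W →ₗ[ℝ] W))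

theorem isoComplemented_of_factor {Z W : Type} [NormedAddCommGroup Z] [NormedSpace ℝ Z]
    [NormedAddCommGroup W] [NormedSpace ℝ W] (J : Z →L[ℝ] W) (Q : W →L[ℝ] Z)
    (h : ∀ z, Q (J z) = z) : IsoComplemented Z W := by
  refine ⟨J.comp Q, fun w => ?_, ?_⟩
  · show J (Q (J (Q w))) = J (Q w)
    rw [h]
  · have hmem : ∀ z, J z ∈ LinearMap.range ((J.comp Q : W →L[ℝ] W) : W →ₗ[ℝ] W) := by
      intro z
      exact ⟨J z, by show J (Q (J z)) = J z; rw [h]⟩
    refine ⟨ContinuousLinearEquiv.equivOfInverse (J.codRestrict _ hmem)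
      (Q.comp (Submodule.subtypeL _)) (fun z => h z) ?_⟩
    rintro ⟨w, v, hv⟩
    apply Subtype.ext
    show J (Q w) = w
    rw [← hv]
    show J (Q (J (Q v))) = J (Q v)
    rw [h]

end Pool.Agent.NH62.Lip
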