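import Pool.Agent.Helper799.DvMain

/-!
# Hilbertian quotients of infinite-dimensional spaces, and the coordinates of `ℓ²`
-/

set_option autoImplicit false
set_option linter.unusedSectionVars false

namespace Pool.Agent.NH62.Lip

open Filter Topology
open scoped InnerProductSpace

section dual

variable {X : Type} [NormedAddCommGroup X] [NormedSpace ℝ X]

theorem dual_infinite (hX : ¬ FiniteDimensional ℝ X) : ¬ FiniteDimensional ℝ (StrongDual ℝ X) := by
  intro h
  apply hX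
  exact FiniteDimensional.of_injective
    (NormedSpace.inclusionInDoubleDualLi ℝ (E := X)).toLinearMap
    (NormedSpace.inclusionInDoubleDualLi ℝ (E := X)).injective

/-- Every infinite-dimensional normed space has quotients uniformly isomorphic to `ℓ₂^k`. -/
theorem exists_quot (hX : ¬ FiniteDimensional ℝ X) (k : ℕ) :
    ∃ q : X →ₗ[ℝ] EuclideanSpace ℝ (Fin k), (∀ x, ‖q x‖ ≤ 22 * ‖x‖) ∧
      ∀ v, ∃ w, q w = v ∧ ‖w‖ ≤ 2 * ‖v‖ := by
  obtain ⟨T, hT⟩ := Pool.Helper799.Te.dvoretzky (𝕜 := ℝ) (dual_infinite hX) k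
  let q : X →ₗ[ℝ] EuclideanSpace ℝ (Fin k) :=
    (WithLp.linearEquiv 2 ℝ (Fin k → ℝ)).symm.toLinearMap ∘ₗ
      LinearMap.pi (fun i => (T (EuclideanSpace.single i 1)).toLinearMap)
  have hqi : ∀ x i, q x i = T (EuclideanSpace.single i 1) x := fun x i => rfl
  have hqT : ∀ x (v : EuclideanSpace ℝ (Fin k)), ⟪q x, v⟫_ℝ = T v x := by
    intro x v
    have h1 : v = ∑ i, v i • EuclideanSpace.single i (1:ℝ) := by
      ext j
      simp [Finset.sum_apply, Pi.single_apply]
    have h2 : T v = ∑ i, v i • T (EuclideanSpace.single i 1) := by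
      conv_lhs => rw [h1]
      rw [map_sum]
      simp only [map_smul]
    rw [h2, PiLp.inner_apply]
    simp only [FunLike.coe_sum, Finset.sum_apply, FunLike.coe_smul,
      Pi.smul_apply, smul_eq_mul]
    apply Finset.sum_congr rfl
    intro i _
    rw [hqi]
    simp
  have hq1 : ∀ x, ‖q x‖ ≤ 22 * ‖x‖ := by
    intro x
    have h1 : ‖q x‖ * ‖q x‖ ≤ (22 * ‖q x‖) * ‖x‖ := by
      rw [← real_inner_self_eq_norm_mul_norm, hqT]
      calc T (q x) x ≤ ‖T (q x) x‖ := Real.le_norm_self _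
        _ ≤ ‖T (q x)‖ * ‖x‖ := ContinuousLinearMap.le_opNorm _ _
        _ ≤ (22 * ‖q x‖) * ‖x‖ := mul_le_mul_of_nonneg_right (hT _).2 (norm_nonneg _)
    rcases (norm_nonneg (q x)).eq_or_lt' with h0 | h0
    · rw [h0]
      positivity
    · by_contra hc
      push Not at hc
      nlinarith
  refine ⟨q, hq1, ?_⟩
  have hsurj : Function.Surjective q := by
    rw [← LinearMap.range_eq_top, ← Submodule.orthogonal_eq_bot_iff]
    rw [Submodule.eq_bot_iff]
    intro w hw
    rw [Submodule.mem_orthogonal] at hw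
    have h1 : T w = 0 := by
      ext x
      rw [← hqT]
      exact hw _ (LinearMap.mem_range_self q x)
    have h2 := (hT w).1
    rw [h1, norm_zero] at h2
    exact norm_le_zero_iff.1 h2
  intro v
  rcases eq_or_ne v 0 with hv | hv
  · exact ⟨0, by rw [map_zero, hv], by rw [norm_zero]; positivity⟩
  · have hv0 : 0 < ‖v‖ := norm_pos_iff.2 hv
    by_contra hc
    push Not at hc
    have hopen : IsOpen (q '' Metric.ball 0 (2 * ‖v‖)) :=
      q.isOpenMap_of_finiteDimensional hsurj _ Metric.isOpen_ball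
    have hconv : Convex ℝ (q '' Metric.ball 0 (2 * ‖v‖)) :=
      (convex_ball 0 (2 * ‖v‖)).linear_image q
    have hnot : v ∉ q '' Metric.ball 0 (2 * ‖v‖) := by
      rintro ⟨w, hw, hwv⟩
      rw [mem_ball_zero_iff] at hw
      exact absurd hw.le (not_le.2 (hc w hwv))
    obtain ⟨f, hf⟩ := geometric_hahn_banach_open_point hconv hopen hnot
    set w := (InnerProductSpace.toDual ℝ (EuclideanSpace ℝ (Fin k))).symm f with hw
    have hfw : ∀ u, f u = ⟪w, u⟫_ℝ := by
      intro u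
      rw [hw, InnerProductSpace.toDual_symm_apply]
    have h1 : ∀ x : X, ‖x‖ < 2 * ‖v‖ → T w x < ‖T w‖ * ‖v‖ := by
      intro x hx
      have h2 := hf (q x) ⟨x, by rwa [mem_ball_zero_iff], rfl⟩
      rw [hfw, hfw, real_inner_comm, hqT] at h2
      have h3 : ⟪w, v⟫_ℝ ≤ ‖w‖ * ‖v‖ := real_inner_le_norm w v
      have h4 : ‖w‖ * ‖v‖ ≤ ‖T w‖ * ‖v‖ := mul_le_mul_of_nonneg_right (hT w).1 hv0.le
      linarith
    have h0 := h1 0 (by rw [norm_zero]; positivity)
    rw [map_zero] at h0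
    have hTw : 0 < ‖T w‖ := by
      by_contra hcc
      push Not at hcc
      nlinarith
    obtain ⟨x, hx1, hx2⟩ := (T w).exists_lt_apply_of_lt_opNorm (half_lt_self hTw)
    rw [Real.norm_eq_abs] at hx2
    have h5 : ∀ c : ℝ, |c| ≤ 2 * ‖v‖ → c * T w x < ‖T w‖ * ‖v‖ := by
      intro c hc
      have := h1 (c • x) (by
        rw [norm_smul, Real.norm_eq_abs]
        calc |c| * ‖x‖ ≤ (2 * ‖v‖) * ‖x‖ := mul_le_mul_of_nonneg_right hc (norm_nonneg _)
          _ < (2 * ‖v‖) * 1 := by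
              apply mul_lt_mul_of_pos_left hx1 (by positivity)
          _ = 2 * ‖v‖ := mul_one _)
      rwa [map_smul, smul_eq_mul] at this
    rcases abs_cases (T w x) with ⟨ha, _⟩ | ⟨ha, _⟩
    · have := h5 (2 * ‖v‖) (by rw [abs_of_pos (by positivity)])
      rw [← ha] at this
      nlinarith
    · have := h5 (-(2 * ‖v‖)) (by rw [abs_neg, abs_of_pos (by positivity)])
      rw [ha] at hx2
      nlinarith

end dual

section ell

/-- `ℓ²`. -/
abbrev L2 : Type := lp (fun _ : ℕ => ℝ) 2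

/-- The first `k` coordinates. -/
noncomputable def P2 (k : ℕ) (z : L2) : EuclideanSpace ℝ (Fin k) := WithLp.toLp 2 (fun i => z i)

/-- Extension by zero. -/
noncomputable def ext0 (k : ℕ) (v : EuclideanSpace ℝ (Fin k)) (n : ℕ) : ℝ :=
  if h : n < k then v ⟨n, h⟩ else 0

/-- The embedding of `ℓ₂^k`. -/
noncomputable def I2 (k : ℕ) (v : EuclideanSpace ℝ (Fin k)) : L2 :=
  ∑ n ∈ Finset.range k, lp.single 2 n (ext0 k v n)

theorem P2_lip (k : ℕ) (z w : L2) : dist (P2 k z) (P2 k w) ≤ 1 * dist z w := by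
  rw [one_mul, dist_eq_norm, dist_eq_norm]
  have h1 : P2 k z - P2 k w = P2 k (z - w) := by
    ext i
    simp [P2]
  rw [h1]
  have h2 : (0:ℝ) < (2:ENNReal).toReal := by norm_num
  have h3 := lp.sum_rpow_le_norm_rpow h2 (z - w) (Finset.range k)
  rw [EuclideanSpace.norm_eq]
  apply Real.sqrt_le_iff.2 ⟨norm_nonneg _, ?_⟩
  have e1 : ∑ i, ‖(P2 k (z - w)) i‖ ^ 2 = ∑ n ∈ Finset.range k, ‖(z - w) n‖ ^ 2 := by
    rw [← Fin.sum_univ_eq_sum_range (fun n => ‖(z - w) n‖ ^ 2) k]
    rfl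
  rw [e1]
  simp only [ENNReal.toReal_ofNat, Real.rpow_ofNat] at h3
  exact h3

theorem ext0_sub (k : ℕ) (v w : EuclideanSpace ℝ (Fin k)) (n : ℕ) :
    ext0 k (v - w) n = ext0 k v n - ext0 k w n := by
  unfold ext0
  split_ifs
  · rfl
  · simp

theorem I2_sub (k : ℕ) (v w : EuclideanSpace ℝ (Fin k)) : I2 k v - I2 k w = I2 k (v - w) := by
  unfold I2
  rw [← Finset.sum_sub_distrib]
  apply Finset.sum_congr rfl
  intro n _
  rw [ext0_sub, ← lp.single_sub]

theorem I2_lip (k : ℕ) (v w : EuclideanSpace ℝ (Fin k)) :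
    dist (I2 k v) (I2 k w) ≤ 1 * dist v w := by
  rw [one_mul, dist_eq_norm, dist_eq_norm, I2_sub]
  have h2 : (0:ℝ) < (2:ENNReal).toReal := by norm_num
  have h3 := lp.norm_sum_single (p := 2) (E := fun _ : ℕ => ℝ) h2 (ext0 k (v - w)) (Finset.range k)
  simp only [ENNReal.toReal_ofNat, Real.rpow_ofNat] at h3
  rw [EuclideanSpace.norm_eq]
  apply Real.le_sqrt_of_sq_le
  unfold I2
  rw [h3, ← Fin.sum_univ_eq_sum_range (fun n => ‖ext0 k (v - w) n‖ ^ 2) k]
  apply le_of_eq
  apply Finset.sum_congr rfl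
  intro i _
  unfold ext0
  rw [dif_pos i.2]

theorem I2_zero (k : ℕ) : I2 k 0 = 0 := by
  have := I2_sub k 0 0
  rw [sub_self, sub_self] at this
  exact this.symm

theorem P2_zero (k : ℕ) : P2 k 0 = 0 := by
  ext i
  simp [P2]

theorem I2_P2 (z : L2) : Tendsto (fun k => I2 k (P2 k z)) atTop (𝓝 z) := by
  have h1 := (lp.hasSum_single (p := 2) (E := fun _ : ℕ => ℝ) (by norm_num) z).tendsto_sum_nat
  apply h1.congr
  intro k
  unfold I2
  apply Finset.sum_congr rfl
  intro n hn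
  unfold ext0
  rw [dif_pos (Finset.mem_range.1 hn)]
  rfl

end ell

end Pool.Agent.NH62.Lip
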