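import Mathlib

/-!
# Gluing truncated maps on disjoint balls
-/

set_option autoImplicit false
set_option linter.unusedSectionVars false

namespace Pool.Agent.NH62.Lip

section psi

variable {E : Type*} [NormedAddCommGroup E] [NormedSpace ℝ E]

/-- The cut-off factor. -/
noncomputable def cut (R : ℝ) (x : E) : ℝ := max 0 (min 1 (2 - ‖x‖ / R))

/-- The truncation map: the identity on the ball of radius `R`, zero off the ball of radius
`2 * R`. -/
noncomputable def psi (R : ℝ) (x : E) : E := cut R x • x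

theorem cut_nonneg (R : ℝ) (x : E) : 0 ≤ cut R x := le_max_left _ _

theorem cut_le_one (R : ℝ) (x : E) : cut R x ≤ 1 := max_le zero_le_one (min_le_left _ _)

theorem cut_lip {R : ℝ} (hR : 0 < R) (x y : E) : |cut R x - cut R y| ≤ ‖x - y‖ / R := by
  unfold cut
  have h1 : |(2 - ‖x‖ / R) - (2 - ‖y‖ / R)| ≤ ‖x - y‖ / R := by
    have : (2 - ‖x‖ / R) - (2 - ‖y‖ / R) = (‖y‖ - ‖x‖) / R := by ring
    rw [this, abs_div, abs_of_pos hR]
    apply div_le_div_of_nonneg_right _ hR.le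
    rw [abs_sub_comm]
    exact abs_norm_sub_norm_le x y
  have h2 := abs_min_sub_min_le_max 1 (2 - ‖x‖ / R) 1 (2 - ‖y‖ / R)
  have h3 := abs_max_sub_max_le_max 0 (min 1 (2 - ‖x‖ / R)) 0 (min 1 (2 - ‖y‖ / R))
  have h0 : 0 ≤ ‖x - y‖ / R := by positivity
  have h4 : max |(1:ℝ) - 1| |(2 - ‖x‖ / R) - (2 - ‖y‖ / R)| ≤ ‖x - y‖ / R := by
    apply max_le _ h1
    simpa using h0
  have h5 : max |(0:ℝ) - 0| |min 1 (2 - ‖x‖ / R) - min 1 (2 - ‖y‖ / R)| ≤ ‖x - y‖ / R := by
    apply max_le _ (h2.trans h4)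
    simpa using h0
  exact h3.trans h5

theorem cut_out {R : ℝ} (hR : 0 < R) {x : E} (hx : 2 * R ≤ ‖x‖) : cut R x = 0 := by
  unfold cut
  apply max_eq_left
  apply (min_le_right _ _).trans
  have : 2 ≤ ‖x‖ / R := by rwa [le_div_iff₀ hR]
  linarith

theorem psi_out {R : ℝ} (hR : 0 < R) {x : E} (hx : 2 * R ≤ ‖x‖) : psi R x = 0 := by
  unfold psi
  rw [cut_out hR hx, zero_smul]

theorem psi_id {R : ℝ} (hR : 0 < R) {x : E} (hx : ‖x‖ ≤ R) : psi R x = x := by
  unfold psi
  have h1 : ‖x‖ / R ≤ 1 := by rwa [div_le_one hR]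
  have : cut R x = 1 := by
    unfold cut
    rw [min_eq_left (by linarith), max_eq_right zero_le_one]
  rw [this, one_smul]

theorem psi_zero (R : ℝ) : psi R (0 : E) = 0 := by
  unfold psi
  rw [smul_zero]

theorem psi_bound {R : ℝ} (hR : 0 < R) (x : E) : ‖psi R x‖ ≤ 2 * R := by
  by_cases h : 2 * R ≤ ‖x‖
  · rw [psi_out hR h, norm_zero]
    positivity
  · push Not at h
    unfold psi
    rw [norm_smul, Real.norm_of_nonneg (cut_nonneg R x)]
    have := cut_le_one R x
    have h0 := cut_nonneg R x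
    have := norm_nonneg x
    nlinarith

theorem psi_lip_aux {R : ℝ} (hR : 0 < R) {x y : E} (hy : ‖y‖ ≤ 2 * R) :
    ‖psi R x - psi R y‖ ≤ 3 * ‖x - y‖ := by
  have e1 : psi R x - psi R y = cut R x • (x - y) + (cut R x - cut R y) • y := by
    unfold psi
    rw [smul_sub, sub_smul]
    abel
  rw [e1]
  refine (norm_add_le _ _).trans ?_
  rw [norm_smul, norm_smul, Real.norm_of_nonneg (cut_nonneg R x), Real.norm_eq_abs]
  have h1 : cut R x * ‖x - y‖ ≤ ‖x - y‖ := mul_le_of_le_one_left (norm_nonneg _) (cut_le_one R x)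
  have h2 : |cut R x - cut R y| * ‖y‖ ≤ (‖x - y‖ / R) * (2 * R) :=
    mul_le_mul (cut_lip hR x y) hy (norm_nonneg _) (by positivity)
  have h3 : (‖x - y‖ / R) * (2 * R) = 2 * ‖x - y‖ := by field_simp
  linarith

theorem psi_lip {R : ℝ} (hR : 0 < R) (x y : E) : ‖psi R x - psi R y‖ ≤ 3 * ‖x - y‖ := by
  by_cases hy : ‖y‖ ≤ 2 * R
  · exact psi_lip_aux hR hy
  · by_cases hx : ‖x‖ ≤ 2 * R
    · rw [← norm_neg, neg_sub, norm_sub_rev x y]
      exact psi_lip_aux hR hx
    · rw [psi_out hR (not_le.1 hy).le, psi_out hR (not_le.1 hx).le, sub_zero, norm_zero]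
      positivity

end psi

section glue

variable {X : Type*} [NormedAddCommGroup X] [NormedSpace ℝ X] {M : Type*} [PseudoMetricSpace M]

/-- The centres. -/
noncomputable def ctr (e : X) (j : ℕ) : X := (4 * (4:ℝ) ^ j) • e

/-- The radii. -/
noncomputable def rad (j : ℕ) : ℝ := (4:ℝ) ^ j

theorem rad_pos (j : ℕ) : 0 < rad j := by unfold rad; positivity

theorem ctr_sep {e : X} (he : ‖e‖ = 1) {i j : ℕ} (hij : i < j) :
    2 * rad i + 2 * rad j ≤ ‖ctr e i - ctr e j‖ := by
  unfold ctr rad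
  have h1 : (4:ℝ) ^ (i + 1) ≤ 4 ^ j := pow_le_pow_right₀ (by norm_num) hij
  rw [pow_succ] at h1
  have h2 : (0:ℝ) < 4 ^ i := by positivity
  rw [← sub_smul, norm_smul, he, mul_one, Real.norm_eq_abs, abs_sub_comm,
    abs_of_nonneg (by linarith)]
  linarith

theorem disj {e : X} (he : ‖e‖ = 1) {i j : ℕ} {x : X} (hi : ‖x - ctr e i‖ < 2 * rad i)
    (hj : ‖x - ctr e j‖ < 2 * rad j) : i = j := by
  have key : ∀ {i j : ℕ}, ‖x - ctr e i‖ < 2 * rad i → ‖x - ctr e j‖ < 2 * rad j → ¬ i < j := by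
    intro i j hi hj hij
    have h1 := ctr_sep he hij
    have h2 : ctr e i - ctr e j = (x - ctr e j) - (x - ctr e i) := by abel
    rw [h2] at h1
    have h3 := norm_sub_le (x - ctr e j) (x - ctr e i)
    linarith
  rcases lt_trichotomy i j with h | h | h
  · exact absurd h (key hi hj)
  · exact h
  · exact absurd h (key hj hi)

open Classical in
/-- The index of the ball containing `x`. -/
noncomputable def sel (e : X) (x : X) : ℕ :=
  if h : ∃ j, ‖x - ctr e j‖ < 2 * rad j then h.choose else 0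

theorem sel_eq {e : X} (he : ‖e‖ = 1) {j : ℕ} {x : X} (hj : ‖x - ctr e j‖ < 2 * rad j) :
    sel e x = j := by
  have h : ∃ j, ‖x - ctr e j‖ < 2 * rad j := ⟨j, hj⟩
  unfold sel
  rw [dif_pos h]
  exact disj he h.choose_spec hj

/-- Gluing. -/
noncomputable def glue (e : X) (F : ℕ → X → M) (x : X) : M := F (sel e x) x

theorem glue_eq {e : X} (he : ‖e‖ = 1) (F : ℕ → X → M) {j : ℕ} {x : X}
    (hj : ‖x - ctr e j‖ < 2 * rad j) : glue e F x = F j x := by
  unfold glue
  rw [sel_eq he hj]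

theorem glue_zero {e : X} (he : ‖e‖ = 1) (F : ℕ → X → M) (o : M)
    (hF : ∀ j x, 2 * rad j ≤ ‖x - ctr e j‖ → F j x = o) : glue e F 0 = o := by
  unfold glue
  apply hF
  unfold ctr rad
  rw [zero_sub, norm_neg, norm_smul, he, Real.norm_of_nonneg (by positivity), mul_one]
  have : (0:ℝ) < 4 ^ (sel e (0:X)) := by positivity
  linarith

theorem glue_lip {e : X} (he : ‖e‖ = 1) (F : ℕ → X → M) (o : M) {K : ℝ} (hK : 0 ≤ K)
    (hF : ∀ j x, 2 * rad j ≤ ‖x - ctr e j‖ → F j x = o)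
    (hL : ∀ j x y, dist (F j x) (F j y) ≤ K * dist x y) (x y : X) :
    dist (glue e F x) (glue e F y) ≤ (2 * K) * dist x y := by
  have hout : ∀ (z : X) j, j ≠ sel e z → F j z = o := by
    intro z j hj
    apply hF
    by_contra hc
    exact hj (sel_eq he (not_le.1 hc)).symm
  have hd : 0 ≤ dist x y := dist_nonneg
  unfold glue
  by_cases h : sel e x = sel e y
  · rw [h]
    have := hL (sel e y) x y
    nlinarith [mul_nonneg hK hd]
  · have h1 := hL (sel e x) x y
    have h2 := hL (sel e y) x y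
    rw [hout y (sel e x) h] at h1
    rw [hout x (sel e y) (Ne.symm h)] at h2
    have h3 := dist_triangle (F (sel e x) x) o (F (sel e y) y)
    linarith

end glue

end Pool.Agent.NH62.Lip
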