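import Pool.Agent.NH62.Lip.Mean
import Pool.Agent.NH62.Lip.Glue
import Pool.Agent.H266R3.LDef

/-!
# Spaces of Lipschitz functions: the factorisation theorem
-/

set_option autoImplicit false
set_option linter.unusedSectionVars false

namespace Pool.Agent.NH62.Lip

open Filter Topology Gardner Pool.Agent.H266R3.LF

theorem IsLip.lin {M : Type*} [PseudoMetricSpace M] {f g : M → ℝ} {L K : ℝ} (hf : IsLip L f)
    (hg : IsLip K g) (c : ℝ) : IsLip (|c| * L + K) (fun z => c * f z + g z) := by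
  intro x y
  have h1 : c * f x + g x - (c * f y + g y) = c * (f x - f y) + (g x - g y) := by ring
  rw [h1]
  refine (abs_add_le _ _).trans ?_
  rw [abs_mul, add_mul, mul_assoc]
  exact add_le_add (mul_le_mul_of_nonneg_left (hf x y) (abs_nonneg _)) (hg x y)

section loc

variable {X : Type*} [NormedAddCommGroup X] [NormedSpace ℝ X]

/-- The local behaviour of `h` near the points `c n`, in the limit. -/
noncomputable def loc (U : Ultrafilter ℕ) (c : ℕ → X) (h : X → ℝ) (x : X) : ℝ :=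
  ulim U (fun n => h (c n + x) - h (c n))

theorem loc_bdd {h : X → ℝ} {L : ℝ} (hh : IsLip L h) (c : ℕ → X) (x : X) :
    Bdd (fun n => h (c n + x) - h (c n)) :=
  ⟨L * ‖x‖, fun n => by
    have := hh (c n + x) (c n)
    rwa [dist_eq_norm, add_sub_cancel_left] at this⟩

theorem loc_lip (U : Ultrafilter ℕ) (c : ℕ → X) {h : X → ℝ} {L : ℝ} (hh : IsLip L h) :
    IsLip L (loc U c h) := by
  intro x y
  apply ulim_abs_sub_le U (loc_bdd hh c x) (loc_bdd hh c y)
  intro n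
  have h1 : h (c n + x) - h (c n) - (h (c n + y) - h (c n)) = h (c n + x) - h (c n + y) := by ring
  rw [h1]
  have := hh (c n + x) (c n + y)
  rwa [dist_add_left] at this

theorem loc_linear (U : Ultrafilter ℕ) (c : ℕ → X) {h g : X → ℝ} {L K : ℝ} (hh : IsLip L h)
    (hg : IsLip K g) (a : ℝ) :
    loc U c (fun z => a * h z + g z) = fun x => a * loc U c h x + loc U c g x := by
  funext x
  unfold loc
  rw [← ulim_smul U (loc_bdd hh c x), ← ulim_add U (bdd_smul (loc_bdd hh c x) a)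
    (loc_bdd hg c x)]
  congr 1
  funext n
  ring

end loc

section main

variable {X : Type*} [NormedAddCommGroup X] [NormedSpace ℝ X] {M : Type*} [MetricSpace M]
  {E : ℕ → Type*} [∀ k, NormedAddCommGroup (E k)] [∀ k, NormedSpace ℝ (E k)]

/-- The pieces. -/
noncomputable def piece (e : X) (q : ∀ k, X →ₗ[ℝ] E k) (I : ∀ k, E k → M) (j : ℕ) (x : X) : M :=
  I (Nat.unpair j).1 (psi (((Nat.unpair j).1 : ℝ) + 1)
    (q (Nat.unpair j).1 (psi (rad j) (x - ctr e j))))

theorem piece_out {e : X} {q : ∀ k, X →ₗ[ℝ] E k} {I : ∀ k, E k → M} {o : M}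
    (hI0 : ∀ k, I k 0 = o) (j : ℕ) (x : X) (hx : 2 * rad j ≤ ‖x - ctr e j‖) :
    piece e q I j x = o := by
  unfold piece
  rw [psi_out (rad_pos j) hx, map_zero, psi_zero, hI0]

theorem piece_lip {e : X} {q : ∀ k, X →ₗ[ℝ] E k} {I : ∀ k, E k → M} {a β : ℝ} (ha : 0 ≤ a)
    (hβ : 0 ≤ β) (hq : ∀ k x, ‖q k x‖ ≤ a * ‖x‖)
    (hI : ∀ k v w, dist (I k v) (I k w) ≤ β * dist v w) (j : ℕ) (x y : X) :
    dist (piece e q I j x) (piece e q I j y) ≤ (9 * a * β) * dist x y := by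
  unfold piece
  refine (hI _ _ _).trans ?_
  rw [dist_eq_norm]
  have h1 := psi_lip (R := ((Nat.unpair j).1 : ℝ) + 1) (by positivity)
    (q (Nat.unpair j).1 (psi (rad j) (x - ctr e j)))
    (q (Nat.unpair j).1 (psi (rad j) (y - ctr e j)))
  rw [← map_sub] at h1
  have h2 := hq (Nat.unpair j).1 (psi (rad j) (x - ctr e j) - psi (rad j) (y - ctr e j))
  have h3 := psi_lip (rad_pos j) (x - ctr e j) (y - ctr e j)
  have h4 : x - ctr e j - (y - ctr e j) = x - y := by abel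
  rw [h4, ← dist_eq_norm x y] at h3
  have h5 : ‖q (Nat.unpair j).1 (psi (rad j) (x - ctr e j) - psi (rad j) (y - ctr e j))‖ ≤
      a * (3 * dist x y) := h2.trans (mul_le_mul_of_nonneg_left h3 ha)
  calc _ ≤ β * (3 * ‖q (Nat.unpair j).1 (psi (rad j) (x - ctr e j) -
        psi (rad j) (y - ctr e j))‖) := mul_le_mul_of_nonneg_left h1 hβ
    _ ≤ β * (3 * (a * (3 * dist x y))) := by
        apply mul_le_mul_of_nonneg_left _ hβ
        linarith
    _ = _ := by ring

/-- The map `Φ`. -/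
noncomputable def phi (e : X) (q : ∀ k, X →ₗ[ℝ] E k) (I : ∀ k, E k → M) : X → M :=
  glue e (piece e q I)

theorem phi_lip {e : X} (he : ‖e‖ = 1) {q : ∀ k, X →ₗ[ℝ] E k} {I : ∀ k, E k → M} {o : M}
    {a β : ℝ} (ha : 0 ≤ a) (hβ : 0 ≤ β) (hq : ∀ k x, ‖q k x‖ ≤ a * ‖x‖)
    (hI : ∀ k v w, dist (I k v) (I k w) ≤ β * dist v w) (hI0 : ∀ k, I k 0 = o) (x y : X) :
    dist (phi e q I x) (phi e q I y) ≤ (18 * a * β) * dist x y := by
  have := glue_lip he (piece e q I) o (K := 9 * a * β) (by positivity)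
    (piece_out hI0) (piece_lip ha hβ hq hI) x y
  unfold phi
  linarith

theorem phi_zero {e : X} (he : ‖e‖ = 1) {q : ∀ k, X →ₗ[ℝ] E k} {I : ∀ k, E k → M} {o : M}
    (hI0 : ∀ k, I k 0 = o) : phi e q I 0 = o :=
  glue_zero he _ o (piece_out hI0)

theorem phi_ctr {e : X} (he : ‖e‖ = 1) {q : ∀ k, X →ₗ[ℝ] E k} {I : ∀ k, E k → M} (k n : ℕ)
    (x : X) (hx : ‖x‖ ≤ rad (Nat.pair k n)) :
    phi e q I (ctr e (Nat.pair k n) + x) = I k (psi ((k : ℝ) + 1) (q k x)) := by
  unfold phi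
  have h0 := rad_pos (Nat.pair k n)
  rw [glue_eq he _ (j := Nat.pair k n)]
  · unfold piece
    rw [add_sub_cancel_left, psi_id h0 hx]
    have hk : (Nat.unpair (Nat.pair k n)).1 = k := by rw [Nat.unpair_pair]
    rw [hk]
  · rw [add_sub_cancel_left]
    linarith

theorem rad_pair_tendsto (k : ℕ) (x : X) : ∀ᶠ n in atTop, ‖x‖ ≤ rad (Nat.pair k n) := by
  obtain ⟨N, hN⟩ := exists_nat_ge ‖x‖
  filter_upwards [eventually_ge_atTop N] with n hn
  have h1 : n ≤ Nat.pair k n := Nat.right_le_pair k n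
  have h2 : ((Nat.pair k n : ℕ) : ℝ) ≤ rad (Nat.pair k n) := by
    unfold rad
    have : Nat.pair k n < 4 ^ Nat.pair k n := Nat.lt_pow_self (by norm_num)
    exact_mod_cast this.le
  have h3 : (N : ℝ) ≤ (Nat.pair k n : ℕ) := by exact_mod_cast hn.trans h1
  linarith

theorem loc_phi (U : Ultrafilter ℕ) (hU : (U : Filter ℕ) ≤ atTop) {e : X} (he : ‖e‖ = 1)
    {q : ∀ k, X →ₗ[ℝ] E k} {I : ∀ k, E k → M} {o : M} (hI0 : ∀ k, I k 0 = o) {f : M → ℝ}
    (hf : f o = 0) (k : ℕ) (x : X) :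
    loc U (fun n => ctr e (Nat.pair k n)) (fun z => f (phi e q I z)) x =
      f (I k (psi ((k : ℝ) + 1) (q k x))) := by
  unfold loc
  apply ulim_eq
  apply tendsto_const_nhds.congr'
  apply hU
  filter_upwards [rad_pair_tendsto k x] with n hn
  rw [phi_ctr he k n x hn]
  have h1 := phi_ctr (q := q) (I := I) he k n 0 (by rw [norm_zero]; exact (rad_pos _).le)
  rw [add_zero, map_zero, psi_zero, hI0] at h1
  rw [h1, hf, sub_zero]

/-- The retraction, on functions. -/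
noncomputable def ret (U : Ultrafilter ℕ) (e : X) (q : ∀ k, X →ₗ[ℝ] E k)
    (m : ∀ k, (LinearMap.ker (q k) → ℝ) → ℝ) (μ : (X → ℝ) → ℝ) (s : ∀ k, E k → X)
    (P : ∀ k, M → E k) (h : X → ℝ) (z : M) : ℝ :=
  ulim U (fun k => avo (m k) μ (s k) (loc U (fun n => ctr e (Nat.pair k n)) h) (P k z))

variable {U : Ultrafilter ℕ} {e : X} {q : ∀ k, X →ₗ[ℝ] E k}
    {m : ∀ k, (LinearMap.ker (q k) → ℝ) → ℝ} {μ : (X → ℝ) → ℝ} {s : ∀ k, E k → X}
    {P : ∀ k, M → E k}

theorem avo_zero (hm : ∀ k, LMean (LinearMap.ker (q k)) (m k)) (hμ : LMean X μ)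
    (hs : ∀ k v, q k (s k v) = v) (k : ℕ) {h : X → ℝ} {L : ℝ} (hh : IsLip L h) :
    avo (m k) μ (s k) h 0 = 0 := by
  unfold avo
  have h1 : s k 0 ∈ LinearMap.ker (q k) := by rw [LinearMap.mem_ker, hs]
  have h2 := av2_inv (hm k) hμ hh 0 ⟨s k 0, h1⟩
  simp only [zero_add] at h2
  rw [h2, av2_zero (hm k) hμ]

theorem ret_bdd (hm : ∀ k, LMean (LinearMap.ker (q k)) (m k)) (hμ : LMean X μ)
    (hs : ∀ k v, q k (s k v) = v) {b α : ℝ} (hb0 : 0 ≤ b)
    (hb : ∀ k v, ∃ w, q k w = v ∧ ‖w‖ ≤ b * ‖v‖) (hP : ∀ k z w, dist (P k z) (P k w) ≤ α * dist z w)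
    {o : M} (hP0 : ∀ k, P k o = 0) {h : X → ℝ} {L : ℝ} (hL : 0 ≤ L) (hh : IsLip L h) (z : M) :
    Bdd (fun k => avo (m k) μ (s k) (loc U (fun n => ctr e (Nat.pair k n)) h) (P k z)) := by
  refine ⟨2 * L * b * (α * dist z o), fun k => ?_⟩
  have h1 := avo_lip (q k) (hm k) hμ (s k) (hs k) (hb k) hL
    (loc_lip U (fun n => ctr e (Nat.pair k n)) hh) (P k z) 0
  rw [avo_zero hm hμ hs k (loc_lip U _ hh), sub_zero] at h1
  have h2 := hP k z o
  rw [hP0] at h2
  exact h1.trans (mul_le_mul_of_nonneg_left h2 (by positivity))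

theorem ret_lip (hm : ∀ k, LMean (LinearMap.ker (q k)) (m k)) (hμ : LMean X μ)
    (hs : ∀ k v, q k (s k v) = v) {b α : ℝ} (hb0 : 0 ≤ b)
    (hb : ∀ k v, ∃ w, q k w = v ∧ ‖w‖ ≤ b * ‖v‖) (hP : ∀ k z w, dist (P k z) (P k w) ≤ α * dist z w)
    {o : M} (hP0 : ∀ k, P k o = 0) {h : X → ℝ} {L : ℝ} (hL : 0 ≤ L) (hh : IsLip L h) :
    IsLip (2 * L * b * α) (ret U e q m μ s P h) := by
  intro z w
  apply ulim_abs_sub_le U (ret_bdd hm hμ hs hb0 hb hP hP0 hL hh z)
    (ret_bdd hm hμ hs hb0 hb hP hP0 hL hh w)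
  intro k
  have h1 := avo_lip (q k) (hm k) hμ (s k) (hs k) (hb k) hL
    (loc_lip U (fun n => ctr e (Nat.pair k n)) hh) (P k z) (P k w)
  refine h1.trans ?_
  rw [mul_assoc (2 * L * b)]
  exact mul_le_mul_of_nonneg_left (hP k z w) (by positivity)

theorem ret_base (hm : ∀ k, LMean (LinearMap.ker (q k)) (m k)) (hμ : LMean X μ)
    (hs : ∀ k v, q k (s k v) = v) {o : M} (hP0 : ∀ k, P k o = 0) {h : X → ℝ} {L : ℝ}
    (hh : IsLip L h) : ret U e q m μ s P h o = 0 := by
  unfold ret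
  have h1 : (fun k => avo (m k) μ (s k) (loc U (fun n => ctr e (Nat.pair k n)) h) (P k o)) =
      fun _ => (0:ℝ) := by
    funext k
    rw [hP0, avo_zero hm hμ hs k (loc_lip U _ hh)]
  rw [h1, ulim_zero]

theorem ret_linear (hm : ∀ k, LMean (LinearMap.ker (q k)) (m k)) (hμ : LMean X μ)
    (hs : ∀ k v, q k (s k v) = v) {b α : ℝ} (hb0 : 0 ≤ b)
    (hb : ∀ k v, ∃ w, q k w = v ∧ ‖w‖ ≤ b * ‖v‖) (hP : ∀ k z w, dist (P k z) (P k w) ≤ α * dist z w)
    {o : M} (hP0 : ∀ k, P k o = 0) {h g : X → ℝ} {L K : ℝ} (hL : 0 ≤ L) (hK : 0 ≤ K)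
    (hh : IsLip L h) (hg : IsLip K g) (c : ℝ) (z : M) :
    ret U e q m μ s P (fun x => c * h x + g x) z =
      c * ret U e q m μ s P h z + ret U e q m μ s P g z := by
  unfold ret
  rw [← ulim_smul U (ret_bdd hm hμ hs hb0 hb hP hP0 hL hh z),
    ← ulim_add U (bdd_smul (ret_bdd hm hμ hs hb0 hb hP hP0 hL hh z) c)
      (ret_bdd hm hμ hs hb0 hb hP hP0 hK hg z)]
  congr 1
  funext k
  rw [loc_linear U _ hh hg, avo_linear (hm k) hμ (s k) (loc_lip U _ hh) (loc_lip U _ hg)]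

theorem ret_phi (hU : (U : Filter ℕ) ≤ atTop) (he : ‖e‖ = 1)
    (hm : ∀ k, LMean (LinearMap.ker (q k)) (m k)) (hμ : LMean X μ)
    (hs : ∀ k v, q k (s k v) = v) {I : ∀ k, E k → M} {β α : ℝ} (hβ : 0 ≤ β)
    (hI : ∀ k v w, dist (I k v) (I k w) ≤ β * dist v w)
    (hP : ∀ k z w, dist (P k z) (P k w) ≤ α * dist z w)
    {o : M} (hI0 : ∀ k, I k 0 = o) (hP0 : ∀ k, P k o = 0)
    (hIP : ∀ z, Tendsto (fun k => I k (P k z)) atTop (𝓝 z)) {f : M → ℝ} {L : ℝ} (hL : 0 ≤ L)
    (hf : IsLip L f) (hf0 : f o = 0) (z : M) :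
    ret U e q m μ s P (fun x => f (phi e q I x)) z = f z := by
  unfold ret
  apply ulim_eq
  have h1 : ∀ k, avo (m k) μ (s k) (loc U (fun n => ctr e (Nat.pair k n))
      (fun x => f (phi e q I x))) (P k z) = f (I k (psi ((k : ℝ) + 1) (P k z))) := by
    intro k
    have e1 : loc U (fun n => ctr e (Nat.pair k n)) (fun x => f (phi e q I x)) =
        fun x => (fun v => f (I k (psi ((k : ℝ) + 1) v))) (q k x) :=
      funext fun x => loc_phi U hU he hI0 hf0 k x
    rw [e1]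
    refine avo_comp (q k) (hm k) hμ (s k) (hs k)
      (u := fun v => f (I k (psi ((k : ℝ) + 1) v))) ?_ (C := L * (β * (2 * ((k:ℝ) + 1)))) ?_
      (P k z)
    · show f (I k (psi ((k : ℝ) + 1) 0)) = 0
      rw [psi_zero, hI0, hf0]
    · intro v
      show |f (I k (psi ((k : ℝ) + 1) v))| ≤ _
      have h2 := hf (I k (psi ((k : ℝ) + 1) v)) (I k 0)
      rw [hI0 k, hf0, sub_zero] at h2
      refine h2.trans ?_
      apply mul_le_mul_of_nonneg_left _ hL
      rw [← hI0 k]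
      refine (hI k _ _).trans ?_
      apply mul_le_mul_of_nonneg_left _ hβ
      rw [dist_zero_right]
      exact psi_bound (by positivity) v
  simp only [h1]
  have hcont : Continuous f := by
    have : LipschitzWith L.toNNReal f := by
      apply LipschitzWith.of_dist_le_mul
      intro x y
      rw [Real.coe_toNNReal _ hL, Real.dist_eq]
      exact hf x y
    exact this.continuous
  have h2 : Tendsto (fun k => f (I k (P k z))) U (𝓝 (f z)) :=
    ((hcont.tendsto z).comp (hIP z)).mono_left hU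
  apply h2.congr'
  apply hU
  obtain ⟨N, hN⟩ := exists_nat_ge (α * dist z o)
  filter_upwards [eventually_ge_atTop N] with k hk
  rw [psi_id (by positivity)]
  have h3 := hP k z o
  rw [hP0, dist_zero_right] at h3
  have h4 : (N : ℝ) ≤ k := by exact_mod_cast hk
  linarith

end main

section final

variable {X : Type} [NormedAddCommGroup X] [NormedSpace ℝ X] {M : Type} [MetricSpace M] {o : M}
  {E : ℕ → Type} [∀ k, NormedAddCommGroup (E k)] [∀ k, NormedSpace ℝ (E k)]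

theorem isLip_fn (f : Lip0 M o) : IsLip ‖f‖ f.fn := f.abs_sub_le

/-- The factorisation theorem.  `X` is a nonzero normed space with linear maps `q k` onto normed
spaces `E k`, of norm at most `a` and such that each `v` lifts to a vector of norm at most
`b * ‖v‖`; `M` is a pointed metric space and `P k : M → E k`, `I k : E k → M` are Lipschitz with
uniform constants, preserve base points and `I k ∘ P k → id` pointwise.  Then the identity of
`Lip_0(M)` factors through `Lip_0(X)`. -/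
theorem factor [Nontrivial X] (q : ∀ k, X →ₗ[ℝ] E k) {a b α β : ℝ} (ha : 0 ≤ a) (hb0 : 0 ≤ b)
    (hα : 0 ≤ α) (hβ : 0 ≤ β) (hq : ∀ k x, ‖q k x‖ ≤ a * ‖x‖)
    (hb : ∀ k v, ∃ w, q k w = v ∧ ‖w‖ ≤ b * ‖v‖)
    (I : ∀ k, E k → M) (P : ∀ k, M → E k)
    (hI : ∀ k v w, dist (I k v) (I k w) ≤ β * dist v w)
    (hP : ∀ k z w, dist (P k z) (P k w) ≤ α * dist z w)
    (hI0 : ∀ k, I k 0 = o) (hP0 : ∀ k, P k o = 0)
    (hIP : ∀ z, Tendsto (fun k => I k (P k z)) atTop (𝓝 z)) :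
    ∃ (J : Lip0 M o →L[ℝ] Lip0 X 0) (Q : Lip0 X 0 →L[ℝ] Lip0 M o), ∀ f, Q (J f) = f := by
  obtain ⟨e, he⟩ := exists_norm_eq X (zero_le_one (α := ℝ))
  obtain ⟨U, hU⟩ : ∃ U : Ultrafilter ℕ, (U : Filter ℕ) ≤ atTop :=
    ⟨Ultrafilter.of atTop, Ultrafilter.of_le _⟩
  choose m hm using fun k => exists_lmean (LinearMap.ker (q k))
  obtain ⟨μ, hμ⟩ := exists_lmean X
  choose s hs hsb using hb
  have hb' : ∀ k v, ∃ w, q k w = v ∧ ‖w‖ ≤ b * ‖v‖ := fun k v => ⟨s k v, hs k v, hsb k v⟩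
  have hlin1 : ∀ (f : X → ℝ) (g : X → ℝ), (fun x => f x + g x) = fun x => 1 * f x + g x := by
    intro f g
    funext x
    rw [one_mul]
  have hlin2 : ∀ (c : ℝ) (f : X → ℝ), (fun x => c * f x) = fun x => c * f x + (0 : X → ℝ) x := by
    intro c f
    funext x
    simp
  have hz : IsLip 0 (0 : X → ℝ) := fun x y => by simp
  have hret0 : ∀ z, ret U e q m μ s P (0 : X → ℝ) z = 0 := by
    intro z
    have h1 := ret_lip (U := U) (e := e) (P := P) hm hμ hs hb0 hb' hP hP0 le_rfl hz z o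
    have h2 := ret_base (U := U) (e := e) (P := P) hm hμ hs hP0 hz
    rw [h2, sub_zero] at h1
    have h3 : |ret U e q m μ s P (0 : X → ℝ) z| ≤ 0 := h1.trans (le_of_eq (by ring))
    exact abs_nonpos_iff.1 h3
  let J : Lip0 M o →L[ℝ] Lip0 X 0 := LinearMap.mkContinuous
    { toFun := fun f => Lip0.mk (fun x => f.fn (phi e q I x))
        (by rw [phi_zero he hI0]; exact f.fn_base) (‖f‖ * (18 * a * β)) (by positivity)
        (fun x y => by
          refine (f.abs_sub_le _ _).trans ?_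
          rw [mul_assoc]
          exact mul_le_mul_of_nonneg_left (phi_lip he ha hβ hq hI hI0 x y) (norm_nonneg _))
      map_add' := fun f g => Lip0.ext fun x => rfl
      map_smul' := fun c f => Lip0.ext fun x => rfl } (18 * a * β) (fun f => by
        apply Lip0.norm_le' _ (by positivity)
        intro x y
        refine (f.abs_sub_le _ _).trans ?_
        calc ‖f‖ * dist (phi e q I x) (phi e q I y) ≤ ‖f‖ * (18 * a * β * dist x y) :=
              mul_le_mul_of_nonneg_left (phi_lip he ha hβ hq hI hI0 x y) (norm_nonneg _)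
          _ = 18 * a * β * ‖f‖ * dist x y := by ring)
  let Q : Lip0 X 0 →L[ℝ] Lip0 M o := LinearMap.mkContinuous
    { toFun := fun h => Lip0.mk (ret U e q m μ s P h.fn)
        (ret_base hm hμ hs hP0 (isLip_fn h)) (2 * ‖h‖ * b * α) (by positivity)
        (ret_lip hm hμ hs hb0 hb' hP hP0 (norm_nonneg _) (isLip_fn h))
      map_add' := fun f g => Lip0.ext fun x => by
        have h1 := ret_linear (U := U) (e := e) hm hμ hs hb0 hb' hP hP0 (norm_nonneg f)
          (norm_nonneg g) (isLip_fn f) (isLip_fn g) 1 x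
        rw [one_mul] at h1
        show ret U e q m μ s P (fun x => f.fn x + g.fn x) x =
          ret U e q m μ s P f.fn x + ret U e q m μ s P g.fn x
        rw [hlin1, h1]
      map_smul' := fun c f => Lip0.ext fun x => by
        have h1 := ret_linear (U := U) (e := e) hm hμ hs hb0 hb' hP hP0 (norm_nonneg f)
          le_rfl (isLip_fn f) hz c x
        rw [hret0, add_zero] at h1
        show ret U e q m μ s P (fun x => c * f.fn x) x = c * ret U e q m μ s P f.fn x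
        rw [hlin2, h1] } (2 * b * α) (fun h => by
        apply Lip0.norm_le' _ (by positivity)
        intro x y
        have := ret_lip (U := U) (e := e) hm hμ hs hb0 hb' hP hP0 (norm_nonneg h) (isLip_fn h) x y
        refine this.trans (le_of_eq ?_)
        ring)
  refine ⟨J, Q, fun f => Lip0.ext fun z => ?_⟩
  exact ret_phi hU he hm hμ hs hβ hI hP hI0 hP0 hIP (norm_nonneg f) (isLip_fn f) f.fn_base z

end final

end Pool.Agent.NH62.Lip
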