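import Pool.Agent.Helper183.Gar.Mean

/-!
# Linear invariant means on abelian groups and averaging of Lipschitz functions
-/

set_option autoImplicit false
set_option linter.unusedSectionVars false

namespace Pool.Agent.NH62.Lip

open Filter Topology Gardner

/-- A linear, normalised, translation invariant mean on bounded functions. -/
structure LMean (G : Type*) [AddCommGroup G] (M : (G → ℝ) → ℝ) : Prop where
  add : ∀ f g, Bdd f → Bdd g → M (fun x => f x + g x) = M f + M g
  smul : ∀ (c : ℝ) f, Bdd f → M (fun x => c * f x) = c * M f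
  const : ∀ a : ℝ, M (fun _ => a) = a
  bound : ∀ f C, (∀ x, |f x| ≤ C) → |M f| ≤ C
  inv : ∀ f a, Bdd f → M (fun x => f (a + x)) = M f

theorem bdd_smul {G : Type*} {f : G → ℝ} (hf : Bdd f) (c : ℝ) : Bdd (fun x => c * f x) := by
  obtain ⟨C, hC⟩ := hf
  exact ⟨|c| * C, fun x => by
    rw [abs_mul]; exact mul_le_mul_of_nonneg_left (hC x) (abs_nonneg _)⟩

theorem exists_lmean (G : Type*) [AddCommGroup G] : ∃ M, LMean G M := by
  obtain ⟨M, h1, _, h3, h4, h5⟩ := Gardner.exists_mean G
  have hsmul : ∀ (c : ℝ) (f : G → ℝ), Bdd f → M (fun x => c * f x) = c * M f := by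
    intro c f hf
    let φ : ℝ →+ ℝ := AddMonoidHom.mk' (fun a => M (fun x => a * f x)) (by
      intro a b
      have := h1 (fun x => a * f x) (fun x => b * f x) (bdd_smul hf a) (bdd_smul hf b)
      rw [← this]
      congr 1
      funext x
      simp only [Pi.add_apply]
      ring)
    obtain ⟨C, hC⟩ := hf
    have hb : ∀ a, ‖φ a‖ ≤ C * |a| := by
      intro a
      apply h4
      intro x
      rw [abs_mul, mul_comm]
      exact mul_le_mul_of_nonneg_right (hC x) (abs_nonneg _)
    have hc : Continuous φ := by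
      apply continuous_of_continuousAt_zero φ
      show Tendsto _ _ (𝓝 (φ 0))
      rw [map_zero]
      have h2 : Tendsto (fun x : ℝ => C * |x|) (𝓝 0) (𝓝 0) := by
        have : Continuous (fun x : ℝ => C * |x|) := by fun_prop
        have := this.tendsto 0
        simpa using this
      exact squeeze_zero_norm hb h2
    have h6 := map_real_smul φ hc c 1
    rw [smul_eq_mul, mul_one, smul_eq_mul] at h6
    have h7 : φ 1 = M f := by
      show M (fun x => 1 * f x) = M f
      simp only [one_mul]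
    rw [h7] at h6
    exact h6
  refine ⟨M, ⟨fun f g hf hg => h1 f g hf hg, hsmul, ?_, h4, h5⟩⟩
  intro a
  have h6 := hsmul a (fun _ => 1) ⟨1, fun x => by norm_num⟩
  rw [h3, mul_one] at h6
  simpa using h6

theorem LMean.sub {G : Type*} [AddCommGroup G] {M : (G → ℝ) → ℝ} (hM : LMean G M)
    {f g : G → ℝ} (hf : Bdd f) (hg : Bdd g) : M (fun x => f x - g x) = M f - M g := by
  have h1 := hM.add f (fun x => (-1) * g x) hf (bdd_smul hg (-1))
  rw [hM.smul (-1) g hg] at h1
  have h2 : (fun x => f x - g x) = fun x => f x + (-1) * g x := by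
    funext x
    ring
  rw [h2, h1]
  ring

/-- `f` is Lipschitz with constant `L`. -/
def IsLip {M : Type*} [PseudoMetricSpace M] (L : ℝ) (f : M → ℝ) : Prop :=
  ∀ x y, |f x - f y| ≤ L * dist x y

section ulim

/-- Ultrafilter limits of bounded families. -/
noncomputable def ulim {ι : Type*} (U : Ultrafilter ι) (a : ι → ℝ) : ℝ := limUnder (U : Filter ι) a

theorem tendsto_ulim {ι : Type*} (U : Ultrafilter ι) {a : ι → ℝ} (ha : Bdd a) :
    Tendsto a U (𝓝 (ulim U a)) := by
  obtain ⟨C, hC⟩ := ha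
  have hmem : Set.Icc (-C) C ∈ (U.map a : Filter ℝ) := by
    rw [Ultrafilter.coe_map, Filter.mem_map]
    exact Filter.Eventually.of_forall fun i => abs_le.mp (hC i)
  obtain ⟨l, -, hl⟩ := isCompact_Icc.ultrafilter_le_nhds' (U.map a) hmem
  exact tendsto_nhds_limUnder ⟨l, hl⟩

theorem ulim_eq {ι : Type*} (U : Ultrafilter ι) {a : ι → ℝ} {l : ℝ} (h : Tendsto a U (𝓝 l)) :
    ulim U a = l := h.limUnder_eq

theorem ulim_add {ι : Type*} (U : Ultrafilter ι) {a b : ι → ℝ} (ha : Bdd a) (hb : Bdd b) :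
    ulim U (fun i => a i + b i) = ulim U a + ulim U b :=
  ulim_eq U ((tendsto_ulim U ha).add (tendsto_ulim U hb))

theorem ulim_smul {ι : Type*} (U : Ultrafilter ι) {a : ι → ℝ} (ha : Bdd a) (c : ℝ) :
    ulim U (fun i => c * a i) = c * ulim U a :=
  ulim_eq U ((tendsto_ulim U ha).const_mul c)

theorem ulim_abs_sub_le {ι : Type*} (U : Ultrafilter ι) {a b : ι → ℝ} (ha : Bdd a) (hb : Bdd b)
    {C : ℝ} (h : ∀ i, |a i - b i| ≤ C) : |ulim U a - ulim U b| ≤ C :=
  le_of_tendsto ((tendsto_ulim U ha).sub (tendsto_ulim U hb)).abs (Eventually.of_forall h)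

theorem ulim_zero {ι : Type*} (U : Ultrafilter ι) : ulim U (fun _ => (0:ℝ)) = 0 :=
  ulim_eq U tendsto_const_nhds

end ulim

section avg

variable {X : Type*} [NormedAddCommGroup X] [NormedSpace ℝ X]
  {E : Type*} [NormedAddCommGroup E] [NormedSpace ℝ E]

/-- Averaging over the kernel. -/
noncomputable def av1 {Y : Submodule ℝ X} (m : (Y → ℝ) → ℝ) (h : X → ℝ) (x : X) : ℝ :=
  m (fun y => h (x + y) - h y)

/-- The linear part. -/
noncomputable def avl (M : (X → ℝ) → ℝ) (h : X → ℝ) (x : X) : ℝ :=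
  M (fun z => h (x + z) - h z)

variable {Y : Submodule ℝ X} {m : (Y → ℝ) → ℝ} {M : (X → ℝ) → ℝ}

theorem bdd_diff {h : X → ℝ} {L : ℝ} (hh : IsLip L h) (x : X) :
    Bdd (fun z => h (x + z) - h z) :=
  ⟨L * ‖x‖, fun z => by
    have := hh (x + z) z
    rwa [dist_eq_norm, add_sub_cancel_right] at this⟩

theorem bdd_diff' {h : X → ℝ} {L : ℝ} (hh : IsLip L h) (x : X) :
    Bdd (fun z : Y => h (x + z) - h z) :=
  ⟨L * ‖x‖, fun z => by
    have := hh (x + z) z
    rwa [dist_eq_norm, add_sub_cancel_right] at this⟩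

theorem av1_lip (hm : LMean Y m) {h : X → ℝ} {L : ℝ} (hh : IsLip L h) : IsLip L (av1 m h) := by
  intro x y
  unfold av1
  rw [← hm.sub (bdd_diff' hh x) (bdd_diff' hh y)]
  apply hm.bound
  intro z
  have h1 : h (x + z) - h z - (h (y + z) - h z) = h (x + z) - h (y + z) := by ring
  rw [h1]
  have := hh (x + z) (y + z)
  rwa [dist_add_right] at this

theorem avl_lip (hM : LMean X M) {h : X → ℝ} {L : ℝ} (hh : IsLip L h) : IsLip L (avl M h) := by
  intro x y
  unfold avl
  rw [← hM.sub (bdd_diff hh x) (bdd_diff hh y)]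
  apply hM.bound
  intro z
  have h1 : h (x + z) - h z - (h (y + z) - h z) = h (x + z) - h (y + z) := by ring
  rw [h1]
  have := hh (x + z) (y + z)
  rwa [dist_add_right] at this

theorem av1_zero (hm : LMean Y m) (h : X → ℝ) : av1 m h 0 = 0 := by
  unfold av1
  have h1 : (fun y : Y => h (0 + y) - h y) = fun _ => 0 := by
    funext y
    rw [zero_add, sub_self]
  rw [h1, hm.const]

theorem avl_zero (hM : LMean X M) (h : X → ℝ) : avl M h 0 = 0 := by
  unfold avl
  have h1 : (fun y : X => h (0 + y) - h y) = fun _ => 0 := by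
    funext y
    rw [zero_add, sub_self]
  rw [h1, hM.const]

theorem av1_add (hm : LMean Y m) {h : X → ℝ} {L : ℝ} (hh : IsLip L h) (x : X) (y : Y) :
    av1 m h (x + y) = av1 m h x + av1 m h y := by
  have e1 : av1 m h x = m (fun z : Y => h (x + y + z) - h (y + z)) := by
    unfold av1
    rw [← hm.inv (fun z : Y => h (x + z) - h z) y (bdd_diff' hh x)]
    congr 1
    funext z
    simp only [Submodule.coe_add]
    rw [add_assoc]
  have b1 : Bdd (fun z : Y => h (x + y + z) - h (y + z)) :=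
    ⟨L * ‖x‖, fun z => by
      have := hh (x + y + z) (y + z)
      rwa [dist_eq_norm, show x + (y:X) + z - (y + z) = x by abel] at this⟩
  rw [e1]
  unfold av1
  rw [← hm.add _ _ b1 (bdd_diff' hh (y : X))]
  congr 1
  funext z
  ring

theorem avl_add (hM : LMean X M) {h : X → ℝ} {L : ℝ} (hh : IsLip L h) (x y : X) :
    avl M h (x + y) = avl M h x + avl M h y := by
  have e1 : avl M h x = M (fun z : X => h (x + y + z) - h (y + z)) := by
    unfold avl
    rw [← hM.inv (fun z : X => h (x + z) - h z) y (bdd_diff hh x)]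
    congr 1
    funext z
    rw [add_assoc]
  have b1 : Bdd (fun z : X => h (x + y + z) - h (y + z)) :=
    ⟨L * ‖x‖, fun z => by
      have := hh (x + y + z) (y + z)
      rwa [dist_eq_norm, show x + y + z - (y + z) = x by abel] at this⟩
  rw [e1]
  unfold avl
  rw [← hM.add _ _ b1 (bdd_diff hh y)]
  congr 1
  funext z
  ring

/-- The `Y`-invariant part. -/
noncomputable def av2 (m : (Y → ℝ) → ℝ) (M : (X → ℝ) → ℝ) (h : X → ℝ) (x : X) : ℝ :=
  av1 m h x - avl M (av1 m h) x

theorem avl_av1 (hm : LMean Y m) (hM : LMean X M) {h : X → ℝ} {L : ℝ} (hh : IsLip L h) (y : Y) :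
    avl M (av1 m h) y = av1 m h y := by
  unfold avl
  have h1 : (fun z => av1 m h (y + z) - av1 m h z) = fun _ => av1 m h y := by
    funext z
    rw [add_comm (y : X) z, av1_add hm hh]
    ring
  rw [h1, hM.const]

theorem av2_inv (hm : LMean Y m) (hM : LMean X M) {h : X → ℝ} {L : ℝ} (hh : IsLip L h)
    (x : X) (y : Y) : av2 m M h (x + y) = av2 m M h x := by
  unfold av2
  rw [av1_add hm hh, avl_add hM (av1_lip hm hh), avl_av1 hm hM hh]
  ring

theorem av2_lip (hm : LMean Y m) (hM : LMean X M) {h : X → ℝ} {L : ℝ} (hh : IsLip L h) :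
    IsLip (2 * L) (av2 m M h) := by
  intro x y
  unfold av2
  have h1 := av1_lip hm hh x y
  have h2 := avl_lip hM (av1_lip hm hh) x y
  have h3 : av1 m h x - avl M (av1 m h) x - (av1 m h y - avl M (av1 m h) y) =
      (av1 m h x - av1 m h y) - (avl M (av1 m h) x - avl M (av1 m h) y) := by ring
  rw [h3]
  calc _ ≤ |av1 m h x - av1 m h y| + |avl M (av1 m h) x - avl M (av1 m h) y| := abs_sub _ _
    _ ≤ 2 * L * dist x y := by linarith

theorem av2_zero (hm : LMean Y m) (hM : LMean X M) (h : X → ℝ) : av2 m M h 0 = 0 := by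
  unfold av2
  rw [av1_zero hm, avl_zero hM, sub_zero]

theorem av1_linear (hm : LMean Y m) {h g : X → ℝ} {L K : ℝ} (hh : IsLip L h) (hg : IsLip K g)
    (c : ℝ) (x : X) : av1 m (fun z => c * h z + g z) x = c * av1 m h x + av1 m g x := by
  unfold av1
  rw [← hm.smul c _ (bdd_diff' hh x), ← hm.add _ _ (bdd_smul (bdd_diff' hh x) c) (bdd_diff' hg x)]
  congr 1
  funext y
  ring

theorem avl_linear (hM : LMean X M) {h g : X → ℝ} {L K : ℝ} (hh : IsLip L h) (hg : IsLip K g)
    (c : ℝ) (x : X) : avl M (fun z => c * h z + g z) x = c * avl M h x + avl M g x := by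
  unfold avl
  rw [← hM.smul c _ (bdd_diff hh x), ← hM.add _ _ (bdd_smul (bdd_diff hh x) c) (bdd_diff hg x)]
  congr 1
  funext y
  ring

theorem av2_linear (hm : LMean Y m) (hM : LMean X M) {h g : X → ℝ} {L K : ℝ} (hh : IsLip L h)
    (hg : IsLip K g) (c : ℝ) (x : X) :
    av2 m M (fun z => c * h z + g z) x = c * av2 m M h x + av2 m M g x := by
  unfold av2
  have h1 : av1 m (fun z => c * h z + g z) = fun z => c * av1 m h z + av1 m g z :=
    funext fun z => av1_linear hm hh hg c z
  rw [h1, avl_linear hM (av1_lip hm hh) (av1_lip hm hg)]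
  ring

/-- The averaging operator, for a section `s` of the quotient map. -/
noncomputable def avo (m : (Y → ℝ) → ℝ) (M : (X → ℝ) → ℝ) (s : E → X) (h : X → ℝ) (v : E) : ℝ :=
  av2 m M h (s v)

theorem avo_lip (q : X →ₗ[ℝ] E) {m : (LinearMap.ker q → ℝ) → ℝ} (hm : LMean (LinearMap.ker q) m)
    (hM : LMean X M) (s : E → X) (hs : ∀ v, q (s v) = v) {b : ℝ}
    (hb : ∀ v, ∃ w, q w = v ∧ ‖w‖ ≤ b * ‖v‖) {h : X → ℝ} {L : ℝ} (hL : 0 ≤ L) (hh : IsLip L h) :
    IsLip (2 * L * b) (avo m M s h) := by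
  intro v v'
  unfold avo
  obtain ⟨w, hw, hwb⟩ := hb (v - v')
  have hmem : s v - (s v' + w) ∈ LinearMap.ker q := by
    rw [LinearMap.mem_ker, map_sub, map_add, hs, hs, hw]
    abel
  have h1 : av2 m M h (s v) = av2 m M h (s v' + w) := by
    have := av2_inv hm hM hh (s v' + w) ⟨_, hmem⟩
    rw [← this]
    congr 1
    simp
  rw [h1]
  have h2 := av2_lip hm hM hh (s v' + w) (s v')
  rw [dist_eq_norm, add_sub_cancel_left] at h2
  refine h2.trans ?_
  rw [dist_eq_norm, mul_assoc (2 * L)]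
  exact mul_le_mul_of_nonneg_left hwb (by linarith)

theorem avo_linear (hm : LMean Y m) (hM : LMean X M) (s : E → X) {h g : X → ℝ} {L K : ℝ}
    (hh : IsLip L h) (hg : IsLip K g) (c : ℝ) (v : E) :
    avo m M s (fun z => c * h z + g z) v = c * avo m M s h v + avo m M s g v :=
  av2_linear hm hM hh hg c (s v)

theorem avo_comp (q : X →ₗ[ℝ] E) {m : (LinearMap.ker q → ℝ) → ℝ} (hm : LMean (LinearMap.ker q) m)
    (hM : LMean X M) (s : E → X) (hs : ∀ v, q (s v) = v) {u : E → ℝ} (h0 : u 0 = 0) {C : ℝ}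
    (hu : ∀ v, |u v| ≤ C) (v : E) : avo m M s (fun x => u (q x)) v = u v := by
  have h1 : av1 m (fun x => u (q x)) = fun x => u (q x) := by
    funext x
    unfold av1
    have e1 : (fun y : LinearMap.ker q => u (q (x + y)) - u (q y)) = fun _ => u (q x) := by
      funext y
      have hy : q (y : X) = 0 := y.2
      rw [map_add, hy, add_zero, h0, sub_zero]
    rw [e1, hm.const]
  have h2 : ∀ x, avl M (fun x => u (q x)) x = 0 := by
    intro x
    unfold avl
    have b1 : Bdd (fun z => u (q (x + z))) := ⟨C, fun z => hu _⟩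
    have b2 : Bdd (fun z => u (q z)) := ⟨C, fun z => hu _⟩
    rw [hM.sub b1 b2, hM.inv (fun z => u (q z)) x b2, sub_self]
  unfold avo av2
  rw [h1, h2, sub_zero]
  show u (q (s v)) = u v
  rw [hs]

end avg

end Pool.Agent.NH62.Lip
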